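import Pool.Agent.H7.Patt2

set_option autoImplicit false

namespace Pool.Agent.Results.MP_9357f2_co.Yes

open Finset Filter Pool.Agent.H7.Patt

/-- `A, B` form the pattern `P` (`true` is plus): list the symmetric difference increasingly and
record for each element whether it lies in `A \ B`. -/
def Forms (P : List Bool) (A B : Finset ℕ) : Prop :=
  ((symmDiff A B).sort (· ≤ ·)).map (fun j => decide (j ∈ A \ B)) = P

/-- `d` plus signs and `d` minus signs, `d ≥ 1`. -/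
def Balanced (P : List Bool) : Prop :=
  ∃ d, 1 ≤ d ∧ P.count true = d ∧ P.count false = d

/-- `f n k P`: the largest size of a `P`-free family of `k`-subsets of `{0, …, n-1}`. -/
noncomputable def f (n k : ℕ) (P : List Bool) : ℕ :=
  sSup {s | ∃ F : Finset (Finset ℕ), F ⊆ powersetCard k (range n) ∧
    (∀ A ∈ F, ∀ B ∈ F, ¬ Forms P A B) ∧ F.card = s}

/-- The density `f(n,k,P) / C(n,k)`. -/
noncomputable def delta (n k : ℕ) (P : List Bool) : ℝ := (f n k P : ℝ) / (n.choose k : ℝ)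

theorem forms {n : ℕ} {A B : Finset ℕ} (hA : A ⊆ range n) (hB : B ⊆ range n) :
    Forms (pat 0 n A B) A B := by
  unfold Forms
  rw [filt_eq ((symmDiff A B).sort (· ≤ ·)) (sortedLT_sort _).pairwise]
  · refine List.map_congr_left fun j hj => ?_
    rw [mem_sort, mem_symmDiff] at hj
    rw [decide_eq_decide]
    have : j ∈ A \ B ↔ j ∈ A ∧ j ∉ B := Finset.mem_sdiff
    tauto
  · intro j
    rw [mem_sort, mem_symmDiff]
    have h1 := @hA j
    have h2 := @hB j
    simp only [mem_range] at h1 h2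
    simp only [Nat.zero_le, Nat.zero_add, true_and]; tauto

theorem bal (r : ℕ) (hr : 1 ≤ r) : Balanced (rep r) := by
  refine ⟨2 * r, by omega, ?_, ?_⟩ <;> simp [rep, List.count_flatten, mul_comm]

theorem main (k N : ℕ) : ∃ n ≥ N, Even n ∧ ∃ P, Balanced P ∧ delta n (n / 2) P ≤ (n : ℝ) ^ (-(k : ℝ)) := by
  obtain ⟨d, hd⟩ : ∃ d, d = 4 * k + 4 := ⟨_, rfl⟩
  obtain ⟨r, hr⟩ : ∃ r, r = (d + 1).factorial := ⟨_, rfl⟩
  obtain ⟨M, hM⟩ : ∃ M, M = 4 ^ (d + 1) * 3 ^ d + 1 := ⟨_, rfl⟩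
  obtain ⟨R, hR⟩ : ∃ R, R = (r + 2) * ((d + 1) * M) := ⟨_, rfl⟩
  obtain ⟨K, hK⟩ : ∃ K, K = (2 ^ (r + 1)) ^ (r + 3) * M ^ (d + 1) := ⟨_, rfl⟩
  obtain ⟨m, hm⟩ : ∃ m, m = 2 * (N + R + K + 2 * k + 5) := ⟨_, rfl⟩
  have hM0 : 0 < M := by rw [hM]; exact Nat.succ_pos _
  have hR0 : 0 < R := by rw [hR]; positivity
  have hm0 : 0 < m := by omega
  obtain ⟨n, hn⟩ : ∃ n, n = R * m ^ 3 := ⟨_, rfl⟩
  have hn0 : 0 < n := by rw [hn]; positivity
  have hn4 : n ≤ m ^ 4 := by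
    rw [hn, pow_succ' m 3]; exact Nat.mul_le_mul_right _ (by omega)
  have hD : n ^ (k + 1) ≤ m ^ d := by
    rw [hd, show 4 * k + 4 = 4 * (k + 1) by ring, pow_mul]; exact Nat.pow_le_pow_left hn4 _
  have hev : Even n := by
    rw [hn]; exact (Nat.even_pow.2 ⟨⟨_, by rw [hm, two_mul]⟩, by norm_num⟩).mul_left _
  refine ⟨n, ?_, hev, rep r, bal r (hr ▸ Nat.factorial_pos _), ?_⟩
  · have h1 : m ≤ m ^ 3 := Nat.le_self_pow (by norm_num) m
    have h2 : m ^ 3 ≤ R * m ^ 3 := Nat.le_mul_of_pos_left _ hR0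
    omega
  have key : ∀ F : Finset (Finset ℕ), F ⊆ powersetCard (n / 2) (range n) →
      (∀ A ∈ F, ∀ B ∈ F, ¬ Forms (rep r) A B) → F.card * n ^ (k + 1) ≤ 2 ^ n := by
    intro F hF hfree
    have hs : ∀ A ∈ F, A ⊆ range n := fun A hA => (mem_powersetCard.1 (hF hA)).1
    refine total (d := d) (M := M) (L := m ^ 3) (m := m) (r := r) (by positivity) hm0 ?_
      (fun l h1 h2 => hr ▸ Nat.dvd_factorial h1 h2) n (by rw [hn, hR]; ring) _ ?_ ?_ F hs
      fun A hA B hB e => hfree A hA B hB (e ▸ forms (hs A hA) (hs B hB))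
    · rw [mul_pow, ← mul_assoc, pow_succ' M d]
      exact Nat.mul_lt_mul_of_pos_right (by omega) (pow_pos hM0 _)
    · rw [← hK, pow_succ m d]
      calc 2 * n ^ (k + 1) * K = n ^ (k + 1) * (2 * K) := by ring
        _ ≤ _ := Nat.mul_le_mul hD (by omega)
    · rw [← hR]
      calc 2 * n ^ (k + 1) * (R * (m * (m ^ 3) ^ m)) = n ^ (k + 1) * (2 * R) * (m * (m ^ 3) ^ m) := by
            ring
        _ ≤ m ^ d * m * (m * (m ^ 3) ^ m) :=
            Nat.mul_le_mul_right _ (Nat.mul_le_mul hD (by omega))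
        _ = m ^ (3 * m + d + 2) := by ring
        _ ≤ (2 ^ m) ^ (3 * m + d + 2) := Nat.pow_le_pow_left Nat.lt_two_pow_self.le _
        _ ≤ (2 ^ m) ^ (m * m) := Nat.pow_le_pow_right (by positivity) (by
            have : 4 * m ≤ m * m := Nat.mul_le_mul_right _ (by omega)
            omega)
        _ = 2 ^ m ^ 3 := by rw [← pow_mul]; congr 1; ring
  have hf : f n (n / 2) (rep r) * n ^ (k + 1) ≤ 2 ^ n := by
    obtain ⟨F, h1, h2, h3⟩ : f n (n / 2) (rep r) ∈ {s | ∃ F : Finset (Finset ℕ),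
        F ⊆ powersetCard (n / 2) (range n) ∧ (∀ A ∈ F, ∀ B ∈ F, ¬ Forms (rep r) A B) ∧ F.card = s} :=
      Nat.sSup_mem ⟨0, ∅, by simp⟩ ⟨_, by rintro s ⟨F, h, -, rfl⟩; exact card_le_card h⟩
    exact h3 ▸ key F h1 h2
  obtain ⟨h, hh⟩ := hev
  have hc : 2 ^ n ≤ n * n.choose (n / 2) := by
    have := Nat.four_pow_le_two_mul_self_mul_centralBinom h (by omega)
    rw [Nat.centralBinom_eq_two_mul_choose, show 2 * h = n by omega,
      show (4 : ℕ) ^ h = 2 ^ n by rw [hh, ← two_mul, pow_mul]; norm_num] at this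
    rwa [show n / 2 = h by omega]
  have h1 : f n (n / 2) (rep r) * n ^ k ≤ n.choose (n / 2) := by
    have : n * (f n (n / 2) (rep r) * n ^ k) ≤ n * n.choose (n / 2) :=
      le_trans (le_of_eq (by ring)) (hf.trans hc)
    exact Nat.le_of_mul_le_mul_left this hn0
  have h2 : (0 : ℝ) < n.choose (n / 2) := by exact_mod_cast Nat.choose_pos (Nat.div_le_self _ _)
  have h3 : (0 : ℝ) < n := by exact_mod_cast hn0
  unfold delta
  rw [Real.rpow_neg h3.le, Real.rpow_natCast, inv_eq_one_div, div_le_div_iff₀ h2 (by positivity),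
    one_mul]
  exact_mod_cast h1

/-- A balanced pattern can force a superpolynomially small density in the middle layer. -/
theorem result : ∃ (n : ℕ → ℕ) (P : ℕ → List Bool) (g : ℕ → ℝ), StrictMono n ∧ (∀ k, Even (n k)) ∧
    (∀ k, Balanced (P k)) ∧ Tendsto g atTop atTop ∧
      ∀ k, delta (n k) (n k / 2) (P k) ≤ (n k : ℝ) ^ (-(g k)) := by
  obtain ⟨n, hn, h⟩ := extraction_forall_of_frequently
    (P := fun k n => Even n ∧ ∃ P, Balanced P ∧ delta n (n / 2) P ≤ (n : ℝ) ^ (-(k : ℝ)))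
    fun k => frequently_atTop.2 fun N => main k N
  choose he P hP hd using h
  exact ⟨n, P, fun k => k, hn, he, hP, tendsto_natCast_atTop_atTop, hd⟩

end Pool.Agent.Results.MP_9357f2_co.Yes
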